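import Mathlib

/-!
# Strict quasi-Lindelöf spaces with large piecewise weak Lindelöf degree for closed sets
-/

set_option autoImplicit false

open Set Topology Cardinal

universe u

namespace Pool.Agent.Results.MP_a1e9e0_gt.StrictQuasiLindelofLargePwLc

/-- `X` is strict quasi-Lindelöf: for every closed `F` and all families `𝒰 n` (`n < ω`) of open sets
which together cover `F` there are countable `𝒱 n ⊆ 𝒰 n` such that the closures of the unions
of the families `𝒱 n` cover `F`. -/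
def StrictQuasiLindelof (X : Type u) [TopologicalSpace X] : Prop :=
  ∀ F : Set X, IsClosed F → ∀ 𝒰 : ℕ → Set (Set X), (∀ n, ∀ U ∈ 𝒰 n, IsOpen U) →
    F ⊆ ⋃ n, ⋃₀ 𝒰 n →
      ∃ 𝒱 : ℕ → Set (Set X), (∀ n, 𝒱 n ⊆ 𝒰 n ∧ (𝒱 n).Countable) ∧ F ⊆ ⋃ n, closure (⋃₀ 𝒱 n)

/-- The defining property of `pwL_c(X) ≤ κ`. -/
def PwLcLE (X : Type u) [TopologicalSpace X] (κ : Cardinal.{u}) : Prop :=
  ∀ F : Set X, IsClosed F → ∀ (I : Type u) (𝒰 : I → Set (Set X)), (∀ i, ∀ U ∈ 𝒰 i, IsOpen U) →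
    F ⊆ ⋃ i, ⋃₀ 𝒰 i →
      ∃ 𝒱 : I → Set (Set X), (∀ i, 𝒱 i ⊆ 𝒰 i ∧ #(𝒱 i) ≤ κ) ∧ F ⊆ ⋃ i, closure (⋃₀ 𝒱 i)

/-- The piecewise weak Lindelöf degree for closed sets: the least cardinal with `PwLcLE`. -/
noncomputable def pwLc (X : Type u) [TopologicalSpace X] : Cardinal.{u} :=
  sInf {κ : Cardinal.{u} | PwLcLE X κ}

theorem PwLcLE.mono {X : Type u} [TopologicalSpace X] {κ μ : Cardinal.{u}} (h : PwLcLE X κ)
    (hκ : κ ≤ μ) : PwLcLE X μ := by
  intro F hF I 𝒰 h1 h2
  obtain ⟨𝒱, h3, h4⟩ := h F hF I 𝒰 h1 h2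
  exact ⟨𝒱, fun i => ⟨(h3 i).1, (h3 i).2.trans hκ⟩, h4⟩

theorem PwLcLE_card (X : Type u) [TopologicalSpace X] : PwLcLE X #(Set X) := by
  intro F hF I 𝒰 h1 h2
  refine ⟨𝒰, fun i => ⟨Subset.rfl, mk_set_le _⟩, h2.trans ?_⟩
  exact iUnion_mono fun i => subset_closure

theorem lt_pwLc {X : Type u} [TopologicalSpace X] {μ : Cardinal.{u}} (h : ¬ PwLcLE X μ) :
    μ < pwLc X := by
  by_contra hcon
  rw [not_lt] at hcon
  have h1 : PwLcLE X (pwLc X) := csInf_mem (s := {κ : Cardinal.{u} | PwLcLE X κ}) ⟨_, PwLcLE_card X⟩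
  exact h (h1.mono hcon)

section Space

variable {Ω : Type u} [LinearOrder Ω]

/-- The smallest neighbourhood of a value: `none` has the whole space, `(α, true)` has the initial
segment up to `α`, and `(α, false)` is isolated. -/
def Nv : Option (Ω × Bool) → Set (Option (Ω × Bool))
  | none => univ
  | some (α, true) => {v | ∃ β b, v = some (β, b) ∧ β ≤ α}
  | some (α, false) => {some (α, false)}

theorem self_mem_Nv (v : Option (Ω × Bool)) : v ∈ Nv v := by
  rcases v with _ | ⟨α, _ | _⟩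
  · exact mem_univ _
  · rfl
  · exact ⟨α, true, rfl, le_rfl⟩

/-- The points: functions with at most countably many values `none`. -/
def Sp (Ω : Type u) : Type u := {x : Ω → Option (Ω × Bool) // {i | x i = none}.Countable}

/-- The cylinder around `x` determined by the coordinates in `s`. -/
def Cyl (s : Finset Ω) (x : Ω → Option (Ω × Bool)) : Set (Sp Ω) := {y | ∀ i ∈ s, y.1 i ∈ Nv (x i)}

theorem Cyl_mono {s t : Finset Ω} (h : s ⊆ t) (x : Ω → Option (Ω × Bool)) :
    Cyl t x ⊆ Cyl s x := fun _ hy i hi => hy i (h hi)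

instance topSp : TopologicalSpace (Sp Ω) where
  IsOpen O := ∀ x ∈ O, ∃ s : Finset Ω, (Cyl s x.1 \ O).Finite
  isOpen_univ := fun x _ => ⟨∅, by simp⟩
  isOpen_inter := by
    classical
    intro O O' h h' x hx
    obtain ⟨s, hs⟩ := h x hx.1
    obtain ⟨t, ht⟩ := h' x hx.2
    refine ⟨s ∪ t, (hs.union ht).subset ?_⟩
    rintro y ⟨hy1, hy2⟩
    by_cases hO : y ∈ O
    · exact Or.inr ⟨Cyl_mono Finset.subset_union_right _ hy1, fun h => hy2 ⟨hO, h⟩⟩
    · exact Or.inl ⟨Cyl_mono Finset.subset_union_left _ hy1, hO⟩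
  isOpen_sUnion := by
    intro S hS x hx
    obtain ⟨O, hO, hxO⟩ := hx
    obtain ⟨s, hs⟩ := hS O hO x hxO
    exact ⟨s, hs.subset fun y hy => ⟨hy.1, fun h => hy.2 ⟨O, hO, h⟩⟩⟩

theorem isOpen_iff_Sp {O : Set (Sp Ω)} :
    IsOpen O ↔ ∀ x ∈ O, ∃ s : Finset Ω, (Cyl s x.1 \ O).Finite := Iff.rfl

instance t1Sp : T1Space (Sp Ω) := by
  refine ⟨fun x => ⟨?_⟩⟩
  rw [isOpen_iff_Sp]
  intro y _
  refine ⟨∅, (finite_singleton x).subset ?_⟩
  rintro z ⟨-, hz⟩
  exact not_not.1 hz

/-- Functions with one prescribed value `none` on a countable set. -/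
noncomputable def mask (g : Sp Ω) (A : Set Ω) (hA : A.Countable) : Sp Ω := by
  classical
  exact ⟨fun i => if i ∈ A then none else g.1 i, (hA.union g.2).mono fun i hi => by
    by_cases h : i ∈ A
    · exact Or.inl h
    · right
      have h2 : (if i ∈ A then none else g.1 i) = none := hi
      rwa [if_neg h] at h2⟩

theorem mask_apply_mem (g : Sp Ω) {A : Set Ω} (hA : A.Countable) {i : Ω} (hi : i ∈ A) :
    (mask g A hA).1 i = none := by
  classical
  exact if_pos hi

theorem mask_apply_not_mem (g : Sp Ω) {A : Set Ω} (hA : A.Countable) {i : Ω} (hi : i ∉ A) :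
    (mask g A hA).1 i = g.1 i := by
  classical
  exact if_neg hi

theorem Nv_mask (g : Sp Ω) {A : Set Ω} (hA : A.Countable) (i : Ω) :
    Nv (g.1 i) ⊆ Nv ((mask g A hA).1 i) := by
  by_cases hi : i ∈ A
  · rw [mask_apply_mem g hA hi]
    exact subset_univ _
  · rw [mask_apply_not_mem g hA hi]

/-- A cylinder is infinite. -/
theorem Cyl_infinite [Infinite Ω] (s : Finset Ω) (x : Sp Ω) : (Cyl s x.1).Infinite := by
  classical
  obtain ⟨i₀, hi₀⟩ := Infinite.exists_notMem_finset s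
  let e : Ω → Sp Ω := fun α => ⟨fun i => if i = i₀ then some (α, false) else x.1 i,
    x.2.mono fun i hi => by
      by_cases h : i = i₀
      · have h2 : (if i = i₀ then some (α, false) else x.1 i) = none := hi
        rw [if_pos h] at h2
        exact absurd h2 (by simp)
      · have h2 : (if i = i₀ then some (α, false) else x.1 i) = none := hi
        rwa [if_neg h] at h2⟩
  have he : Function.Injective e := by
    intro α β h
    have h2 : (e α).1 i₀ = (e β).1 i₀ := by rw [h]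
    simpa [e] using h2
  refine (infinite_range_of_injective he).mono ?_
  rintro _ ⟨α, rfl⟩ i hi
  have h : i ≠ i₀ := fun h => hi₀ (h ▸ hi)
  have h2 : (e α).1 i = x.1 i := if_neg h
  rw [h2]
  exact self_mem_Nv _

theorem sQL [Infinite Ω] (hb : ∀ s : Set Ω, s.Countable → ∃ b, ∀ a ∈ s, a < b) :
    StrictQuasiLindelof (Sp Ω) := by
  classical
  intro F hF 𝒰 hU hc
  by_cases hfin : F.Finite
  · -- finite closed sets
    have h1 : ∀ x : F, ∃ n, ∃ U ∈ 𝒰 n, x.1 ∈ U := by
      intro x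
      obtain ⟨n, U, hUn, hx⟩ := mem_iUnion.1 (hc x.2)
      exact ⟨n, U, hUn, hx⟩
    choose n U hUn hxU using h1
    have : Finite F := hfin
    refine ⟨fun k => {V | ∃ x : F, n x = k ∧ V = U x}, fun k => ⟨?_, ?_⟩, ?_⟩
    · rintro V ⟨x, hx, rfl⟩
      exact hx ▸ hUn x
    · refine ((countable_range U).mono ?_)
      rintro V ⟨x, -, rfl⟩
      exact ⟨x, rfl⟩
    · intro x hx
      refine mem_iUnion.2 ⟨n ⟨x, hx⟩, subset_closure ⟨U ⟨x, hx⟩, ⟨⟨x, hx⟩, rfl, rfl⟩, hxU _⟩⟩
  have hinf : F.Infinite := hfin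
  let P : Set (Sp Ω) := {x | ∀ s : Finset Ω, (Cyl s x.1 ∩ F).Infinite}
  have hPF : P ⊆ F := by
    intro x hx
    by_contra hxF
    obtain ⟨s, hs⟩ := isOpen_iff_Sp.1 hF.isOpen_compl x hxF
    refine hx s (hs.subset ?_)
    rintro y ⟨h1, h2⟩
    exact ⟨h1, fun h => h h2⟩
  have hPne : ∃ g, g ∈ P := by
    let g : ℕ → Sp Ω := fun k => (hinf.natEmbedding F k).1
    have hg : ∀ k, g k ∈ F := fun k => (hinf.natEmbedding F k).2
    have hgi : Function.Injective g := fun a b hab =>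
      (hinf.natEmbedding F).injective (Subtype.ext hab)
    let J : Set Ω := ⋃ k, {i | (g k).1 i = none}
    have hJ : J.Countable := countable_iUnion fun k => (g k).2
    have h1 : ∀ i, ∃ α : Ω, ∀ k β b, (g k).1 i = some (β, b) → β ≤ α := by
      intro i
      obtain ⟨α, hα⟩ := hb (⋃ k, {β | ∃ b, (g k).1 i = some (β, b)}) (countable_iUnion fun k => by
        refine Set.Subsingleton.countable ?_
        rintro β ⟨b, hb1⟩ β' ⟨b', hb2⟩
        rw [hb1] at hb2
        simp only [Option.some.injEq, Prod.mk.injEq] at hb2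
        exact hb2.1)
      exact ⟨α, fun k β b h => (hα β (mem_iUnion.2 ⟨k, b, h⟩)).le⟩
    choose α hα using h1
    let f : Sp Ω := ⟨fun i => if i ∈ J then none else some (α i, true), hJ.mono fun i hi => by
      by_contra h
      have h2 : (if i ∈ J then none else some (α i, true)) = none := hi
      rw [if_neg h] at h2
      exact absurd h2 (by simp)⟩
    refine ⟨f, fun s => ?_⟩
    refine (infinite_range_of_injective hgi).mono ?_
    rintro _ ⟨k, rfl⟩
    refine ⟨fun i _ => ?_, hg k⟩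
    by_cases hi : i ∈ J
    · have h2 : f.1 i = none := if_pos hi
      rw [h2]
      exact mem_univ _
    · have h2 : f.1 i = some (α i, true) := if_neg hi
      rw [h2]
      rcases hk : (g k).1 i with _ | ⟨β, b⟩
      · exact absurd (mem_iUnion.2 ⟨k, hk⟩) hi
      · exact ⟨β, b, rfl, hα i k β b hk⟩
  obtain ⟨g, hg⟩ := hPne
  have hmask : ∀ (A : Set Ω) (hA : A.Countable), mask g A hA ∈ F := by
    intro A hA
    refine hPF fun s => (hg s).mono ?_
    rintro y ⟨h1, h2⟩
    exact ⟨fun i hi => Nv_mask g hA i (h1 i hi), h2⟩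
  have h1 : ∀ A : Set Ω, ∃ (n : ℕ) (U : Set (Sp Ω)) (s : Finset Ω), A.Countable →
      U ∈ 𝒰 n ∧ (∀ i ∈ s, i ∉ A) ∧ (Cyl s g.1 \ U).Finite := by
    intro A
    by_cases hA : A.Countable
    · obtain ⟨n, U, hUn, hx⟩ := mem_iUnion.1 (hc (hmask A hA))
      obtain ⟨s, hs⟩ := isOpen_iff_Sp.1 (hU n U hUn) _ hx
      refine ⟨n, U, s.filter fun i => i ∉ A, fun _ => ⟨hUn, fun i hi => (Finset.mem_filter.1 hi).2,
        hs.subset ?_⟩⟩
      rintro y ⟨h2, h3⟩
      refine ⟨fun i hi => ?_, h3⟩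
      by_cases hiA : i ∈ A
      · rw [mask_apply_mem g hA hiA]
        exact mem_univ _
      · rw [mask_apply_not_mem g hA hiA]
        exact h2 i (Finset.mem_filter.2 ⟨hi, hiA⟩)
    · exact ⟨0, ∅, ∅, fun h => absurd h hA⟩
  choose n U s hall using h1
  -- a value of `n` that occurs above every countable set
  have h2 : ∃ m, ∀ A : Set Ω, A.Countable → ∃ A', A ⊆ A' ∧ A'.Countable ∧ n A' = m := by
    by_contra hcon
    push Not at hcon
    choose A hA hA' using hcon
    exact hA' (n (⋃ k, A k)) (⋃ k, A k) (subset_iUnion A _) (countable_iUnion hA) rfl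
  obtain ⟨m, hm⟩ := h2
  choose! B hB1 hB2 hB3 using hm
  let A : ℕ → Set Ω := fun k => Nat.rec (B ∅) (fun _ S => B (S ∪ (s S : Set Ω))) k
  have hA0 : A 0 = B ∅ := rfl
  have hAs : ∀ k, A (k + 1) = B (A k ∪ (s (A k) : Set Ω)) := fun _ => rfl
  have hAc : ∀ k, (A k).Countable := by
    intro k
    induction k with
    | zero => exact hB2 ∅ countable_empty
    | succ k ih =>
      rw [hAs]
      exact hB2 _ (ih.union (Finset.countable_toSet _))
  have hAm : ∀ k, n (A k) = m := by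
    intro k
    cases k with
    | zero => exact hB3 ∅ countable_empty
    | succ k =>
      rw [hAs]
      exact hB3 _ ((hAc k).union (Finset.countable_toSet _))
  have hstep : ∀ k, A k ∪ (s (A k) : Set Ω) ⊆ A (k + 1) := by
    intro k
    rw [hAs]
    exact hB1 _ ((hAc k).union (Finset.countable_toSet _))
  have hmono : Monotone A := monotone_nat_of_le_succ fun k =>
    Subset.trans subset_union_left (hstep k)
  have hdisj : ∀ i k l, k < l → i ∈ s (A k) → i ∉ s (A l) := by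
    intro i k l hkl hik hil
    exact (hall (A l) (hAc l)).2.1 i hil (hmono (Nat.succ_le_of_lt hkl) (hstep k (Or.inr hik)))
  have hdense : Dense (⋃₀ range fun k => U (A k)) := by
    rw [dense_iff_inter_open]
    rintro O hO ⟨x, hx⟩
    obtain ⟨t, ht⟩ := isOpen_iff_Sp.1 hO x hx
    -- some `s (A k)` is disjoint from `t`
    obtain ⟨k, hk⟩ : ∃ k, ∀ i ∈ t, i ∉ s (A k) := by
      by_contra hcon
      push Not at hcon
      choose i hi hi' using hcon
      have hinj : Function.Injective i := by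
        intro k l hkl
        rcases lt_trichotomy k l with h | h | h
        · exact absurd (hkl ▸ hi' l) (hdisj _ k l h (hi' k))
        · exact h
        · exact absurd (hkl ▸ hi' l) (fun h3 => hdisj _ l k h h3 (hi' k))
      exact (infinite_range_of_injective hinj) ((Finset.finite_toSet t).subset (by
        rintro _ ⟨k, rfl⟩
        exact hi k))
    let w : Sp Ω := ⟨fun i => if i ∈ t then x.1 i else g.1 i, (x.2.union g.2).mono fun i hi => by
      by_cases h : i ∈ t
      · left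
        have h2 : (if i ∈ t then x.1 i else g.1 i) = none := hi
        rwa [if_pos h] at h2
      · right
        have h2 : (if i ∈ t then x.1 i else g.1 i) = none := hi
        rwa [if_neg h] at h2⟩
    have hw := Cyl_infinite (t ∪ s (A k)) w
    have hfin2 : ((Cyl t x.1 \ O) ∪ (Cyl (s (A k)) g.1 \ U (A k))).Finite :=
      ht.union (hall (A k) (hAc k)).2.2
    obtain ⟨y, hy1, hy2⟩ := hw.exists_notMem_finite hfin2
    have hyt : y ∈ Cyl t x.1 := by
      intro i hi
      have h2 : w.1 i = x.1 i := if_pos hi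
      rw [← h2]
      exact hy1 i (Finset.mem_union_left _ hi)
    have hys : y ∈ Cyl (s (A k)) g.1 := by
      intro i hi
      have h2 : w.1 i = g.1 i := if_neg fun h => hk i h hi
      rw [← h2]
      exact hy1 i (Finset.mem_union_right _ hi)
    refine ⟨y, ?_, U (A k), ⟨k, rfl⟩, ?_⟩
    · by_contra h
      exact hy2 (Or.inl ⟨hyt, h⟩)
    · by_contra h
      exact hy2 (Or.inr ⟨hys, h⟩)
  refine ⟨fun k => if k = m then range (fun k => U (A k)) else ∅, fun k => ?_, ?_⟩
  · dsimp only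
    by_cases hk : k = m
    · subst hk
      rw [if_pos rfl]
      refine ⟨?_, countable_range _⟩
      rintro _ ⟨l, rfl⟩
      have h3 := (hall (A l) (hAc l)).1
      rwa [hAm l] at h3
    · rw [if_neg hk]
      exact ⟨empty_subset _, countable_empty⟩
  · intro x _
    refine mem_iUnion.2 ⟨m, ?_⟩
    dsimp only
    rw [if_pos rfl, hdense.closure_eq]
    exact mem_univ x

theorem not_PwLcLE (μ : Cardinal.{u}) (hΩ : ¬ (univ : Set Ω).Countable)
    (hb : ∀ s : Set Ω, #s ≤ μ → ∃ b, ∀ a ∈ s, a < b) : ¬ PwLcLE (Sp Ω) μ := by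
  classical
  intro h
  let W : Ω → Ω → Set (Sp Ω) := fun i α => {x | ∃ β b, x.1 i = some (β, b) ∧ β ≤ α}
  obtain ⟨𝒱, h1, h2⟩ := h univ isClosed_univ Ω (fun i => range (W i)) (by
    rintro i _ ⟨α, rfl⟩
    rw [isOpen_iff_Sp]
    rintro x ⟨β, b, hx, hβ⟩
    refine ⟨{i}, finite_empty.subset ?_⟩
    rintro y ⟨hy1, hy2⟩
    apply hy2
    have h3 := hy1 i (Finset.mem_singleton_self i)
    rw [hx] at h3
    cases b with
    | true =>
      obtain ⟨β', b', h4, h5⟩ := h3
      exact ⟨β', b', h4, h5.trans hβ⟩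
    | false => exact ⟨β, false, h3, hβ⟩) (by
    intro x _
    obtain ⟨i, hi⟩ : ∃ i, x.1 i ≠ none := by
      by_contra hcon
      push Not at hcon
      exact hΩ (x.2.mono fun i _ => hcon i)
    rcases hv : x.1 i with _ | ⟨β, b⟩
    · exact absurd hv hi
    · exact mem_iUnion.2 ⟨i, W i β, ⟨β, rfl⟩, β, b, hv, le_rfl⟩)
  have h3 : ∀ i, ∃ γ : Ω, ∀ V ∈ 𝒱 i, ∃ α < γ, V = W i α := by
    intro i
    have h4 : ∀ V : 𝒱 i, ∃ α, W i α = V.1 := fun V => (h1 i).1 V.2
    choose c hc using h4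
    obtain ⟨γ, hγ⟩ := hb (range c) (mk_range_le.trans (h1 i).2)
    exact ⟨γ, fun V hV => ⟨c ⟨V, hV⟩, hγ _ ⟨_, rfl⟩, (hc ⟨V, hV⟩).symm⟩⟩
  choose γ hγ using h3
  let x : Sp Ω := ⟨fun i => some (γ i, false), by simp⟩
  obtain ⟨i, hi⟩ := mem_iUnion.1 (h2 (mem_univ x))
  have hO : IsOpen {y : Sp Ω | y.1 i = some (γ i, false)} := by
    rw [isOpen_iff_Sp]
    intro y hy
    refine ⟨{i}, finite_empty.subset ?_⟩
    rintro z ⟨hz1, hz2⟩
    apply hz2
    have h4 := hz1 i (Finset.mem_singleton_self i)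
    have hy' : y.1 i = some (γ i, false) := hy
    rw [hy'] at h4
    exact h4
  obtain ⟨y, hy1, V, hV, hyV⟩ := mem_closure_iff.1 hi _ hO rfl
  obtain ⟨α, hα, rfl⟩ := hγ i V hV
  obtain ⟨β, b, h5, h6⟩ := hyV
  have hy' : y.1 i = some (γ i, false) := hy1
  rw [hy'] at h5
  simp only [Option.some.injEq, Prod.mk.injEq] at h5
  exact absurd (h6.trans_lt hα) (by rw [h5.1]; exact lt_irrefl _)

end Space

/-- For every cardinal `μ` there is a strict quasi-Lindelöf `T₁` space `X` with `pwL_c(X) > μ`. -/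
theorem result (μ : Cardinal.{u}) :
    ∃ (X : Type u) (_ : TopologicalSpace X), T1Space X ∧ StrictQuasiLindelof X ∧ μ < pwLc X := by
  let κ : Cardinal.{u} := Order.succ (max μ ℵ₀)
  have hκ : κ.IsRegular := isRegular_succ (le_max_right _ _)
  have hbd : ∀ s : Set κ.ord.ToType, #s < κ → ∃ b, ∀ a ∈ s, a < b := by
    intro s hs'
    have hcof : ¬ IsCofinal s := by
      intro h
      have h2 := Order.cof_le h
      rw [Ordinal.cof_toType, hκ.cof_ord] at h2
      exact absurd h2 (not_le.2 hs')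
    rw [IsCofinal] at hcof
    push Not at hcof
    obtain ⟨b, hb⟩ := hcof
    exact ⟨b, fun a ha => hb a ha⟩
  have hlt1 : μ < κ := (le_max_left _ _).trans_lt (Order.lt_succ _)
  have hlt2 : ℵ₀ < κ := (le_max_right _ _).trans_lt (Order.lt_succ _)
  have hinf : Infinite κ.ord.ToType := by
    rw [infinite_iff, mk_toType, card_ord]
    exact hlt2.le
  refine ⟨Sp κ.ord.ToType, inferInstance, inferInstance, ?_, ?_⟩
  · exact sQL fun s hs => hbd s (hs.le_aleph0.trans_lt hlt2)
  · refine lt_pwLc (not_PwLcLE μ ?_ fun s hs => hbd s (hs.trans_lt hlt1))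
    intro h
    have h2 := h.le_aleph0
    rw [mk_univ, mk_toType, card_ord] at h2
    exact absurd h2 (not_le.2 hlt2)

end Pool.Agent.Results.MP_a1e9e0_gt.StrictQuasiLindelofLargePwLc
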